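import Pool.Agent.Lib_helper18.AQ.K.Defs
import Pool.Agent.Lib_helper15.PFM.Defs

/-!
# AQ (MP_892e4c_nt): first moments of the weights (helper15)

Port of `Lib_helper15/PFM` to forms of determinant `D` (class `PENK.FD` of helper18).  The notions which
do not depend on the forms are the old ones: `DE`, `ph`, `LocS`, `Bo`, `Un` (Pool.Agent.PFM), `dl`, `dn`
(Pool.Agent.PENK).  New: `IsP`, `v1`, `Ph`, `bd`, `W1`.  An open edge is simply not in `E`, `fe`.
-/

set_option autoImplicit false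

namespace Pool.Agent.AQ.PFM

open Finset Pool.Agent.PENT
open Pool.Agent.PENK (PolyK Bas nr dl Rf Wts prs ind lw PerV PerP mL EquiF ich L1)
open Pool.Agent.PFM (DE ph LocS Bo Un)
open Pool.Agent.AQ.PENK (FD VV mV EQQ Sp nz)

variable [FD]

/-- the old `d_j` (no open edge) -/
abbrev dn {K : ℕ} [NeZero K] (u : PolyK K) (j : Fin K) : ℕ := Pool.Agent.PENK.dn u j

/-- the polygons: primitive vertices, the `d_j`, `j ∈ E`, squarefree, coprime, with split primes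
larger than `P0 ≥ N0` -/
structure IsP {K : ℕ} [NeZero K] (E : Finset (Fin K)) (P0 : ℕ) (u : PolyK K) : Prop where
  pr : ∀ i, IsCoprime (u i).1 (u i).2
  sq : ∀ j ∈ E, Squarefree (dn u j)
  ro : ∀ j ∈ E, ∀ p : ℕ, p.Prime → p ∣ dn u j → P0 < p ∧ Sp p
  co : ∀ i ∈ E, ∀ j ∈ E, i ≠ j → Nat.Coprime (dn u i) (dn u j)
  np : FD.N0 ≤ P0

/-- `v_p(u)` -/
noncomputable def v1 {K : ℕ} (W : Wts K) (P0 : ℕ) (vq : Finset (Fin K)) (u : PolyK K) (p : ℕ) : ℝ :=
  mV p (fun R => 1 - ph W P0 vq u p R)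

/-- the local factor of the second sieve -/
noncomputable def Ph {K : ℕ} [NeZero K] (W : Wts K) (P0 : ℕ) (fe vq : Finset (Fin K))
    (u : PolyK K) (p : ℕ) : ℝ :=
  if p ∣ DE fe u then
    (if p ≤ P0 ∨ ¬ Sp p then 0 else ∏ j ∈ fe, if p ∣ dn u j then 2 * W.al j else 1)
  else 1 - v1 W P0 vq u p

/-- the density of the second sieve is at least `bd / p` -/
noncomputable def bd {K : ℕ} (fe vq : Finset (Fin K)) (W : Wts K) (P0 p : ℕ) : ℝ :=
  if ¬ Sp p then (fe.card : ℝ)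
  else if p ≤ P0 then (fe.card : ℝ) + 2 * ∑ i ∈ vq, (1 - W.bo i)
  else ∑ j ∈ fe, (1 - 2 * W.al j) + 2 * ∑ i ∈ vq, (1 - W.be i)

/-- the weight of `(R, u)`: `al j` at the primes `N0 < p ≤ P` of `d_j`, `j ∈ E`, and `ph` at the other
primes `N0 < p ≤ P` -/
noncomputable def W1 {K : ℕ} [NeZero K] (W : Wts K) (P0 P : ℕ) (E vq : Finset (Fin K))
    (u : PolyK K) (R : Bas) : ℝ :=
  ∏ p ∈ prs FD.N0 P, if p ∣ DE E u then ∏ j ∈ E, (if p ∣ dn u j then W.al j else 1)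
    else ph W P0 vq u p R

end Pool.Agent.AQ.PFM
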