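import Pool.Agent.Lib_helper15.AQ.PFM.Defs

/-!
# AQ (MP_892e4c_nt): first moments, the polygons (port of PFM/Poly; helper15, helper18)
-/

set_option autoImplicit false

namespace Pool.Agent.AQ.PFM

open Finset Pool.Agent.PENT
open Pool.Agent.PENK (PolyK Bas nr dl Rf Wts prs ind lw PerV PerP mL EquiF ich L1)
open Pool.Agent.PFM (DE ph LocS Bo Un)
open Pool.Agent.AQ.PENK (FD VV mV EQQ Sp nz)

variable [FD]

theorem dn_ne_zero {K : ℕ} [NeZero K] {E : Finset (Fin K)} {P0 : ℕ} {u : PolyK K}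
    (h : IsP E P0 u) {j : Fin K} (hj : j ∈ E) : dn u j ≠ 0 := (h.sq j hj).ne_zero

theorem DE_ne_zero {K : ℕ} [NeZero K] {E : Finset (Fin K)} {P0 : ℕ} {u : PolyK K}
    (h : IsP E P0 u) : DE E u ≠ 0 := Finset.prod_ne_zero_iff.2 (fun _ hj => dn_ne_zero h hj)

/-- products over the primes of `DE` split over the edges -/
theorem prod_DE {K : ℕ} [NeZero K] {E : Finset (Fin K)} {P0 : ℕ} {u : PolyK K}
    (h : IsP E P0 u) (f : ℕ → ℝ) :
    ∏ l ∈ (DE E u).primeFactors, f l = ∏ j ∈ E, ∏ l ∈ (dn u j).primeFactors, f l := by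
  classical
  have h1 : (DE E u).primeFactors = E.biUnion (fun j => (dn u j).primeFactors) := by
    ext l
    rw [Finset.mem_biUnion]
    constructor
    · intro hl
      have hp := Nat.prime_of_mem_primeFactors hl
      have hd := Nat.dvd_of_mem_primeFactors hl
      unfold DE at hd
      obtain ⟨j, hj, hd'⟩ := (Prime.dvd_finsetProd_iff hp.prime _).1 hd
      exact ⟨j, hj, Nat.mem_primeFactors.2 ⟨hp, hd', dn_ne_zero h hj⟩⟩
    · rintro ⟨j, hj, hl⟩
      exact Nat.mem_primeFactors.2 ⟨Nat.prime_of_mem_primeFactors hl,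
        (Nat.dvd_of_mem_primeFactors hl).trans (Finset.dvd_prod_of_mem _ hj), DE_ne_zero h⟩
  rw [h1, Finset.prod_biUnion]
  intro i hi j hj hij
  rw [Function.onFun, Finset.disjoint_left]
  intro l hl hl'
  have hc := h.co i hi j hj hij
  have hp := Nat.prime_of_mem_primeFactors hl
  have := Nat.dvd_gcd (Nat.dvd_of_mem_primeFactors hl) (Nat.dvd_of_mem_primeFactors hl')
  rw [hc] at this
  exact hp.one_lt.ne' (Nat.dvd_one.1 this)

/-- the edge factor at a prime of `d_j` -/
theorem edge_factor {K : ℕ} [NeZero K] {E : Finset (Fin K)} {P0 : ℕ} {u : PolyK K}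
    (h : IsP E P0 u) (a : Fin K → ℝ) {j : Fin K} (hj : j ∈ E) {l : ℕ} (hl : l.Prime)
    (hd : l ∣ dn u j) : ∏ i ∈ E, (if l ∣ dn u i then a i else 1) = a j := by
  classical
  rw [Finset.prod_eq_single j]
  · rw [if_pos hd]
  · intro i hi hij
    rw [if_neg]
    intro hd'
    have hc := h.co i hi j hj hij
    have := Nat.dvd_gcd hd' hd
    rw [hc] at this
    exact hl.one_lt.ne' (Nat.dvd_one.1 this)
  · intro hn
    exact absurd hj hn

/-- the weight as edge part times vertex part -/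
theorem W1_split {K : ℕ} [NeZero K] {E vq : Finset (Fin K)} {P0 P : ℕ}
    {u : PolyK K} (h : IsP E P0 u) (W : Wts K) (R : Bas) :
    W1 W P0 P E vq u R =
      (∏ j ∈ E, ∏ l ∈ (dn u j).primeFactors, lw P l (W.al j)) *
        ∏ p ∈ (prs FD.N0 P).filter (fun p => ¬ p ∣ DE E u), ph W P0 vq u p R := by
  classical
  unfold W1
  rw [← Finset.prod_filter_mul_prod_filter_not (prs FD.N0 P) (fun p => p ∣ DE E u)]
  congr 1
  · have e1 : ∏ j ∈ E, ∏ l ∈ (dn u j).primeFactors, lw P l (W.al j) =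
        ∏ l ∈ (DE E u).primeFactors, (if l ≤ P then ∏ j ∈ E, (if l ∣ dn u j then W.al j else 1)
          else 1) := by
      rw [prod_DE h]
      apply Finset.prod_congr rfl
      intro j hj
      apply Finset.prod_congr rfl
      intro l hl
      rw [edge_factor h W.al hj (Nat.prime_of_mem_primeFactors hl)
        (Nat.dvd_of_mem_primeFactors hl)]
      rfl
    rw [e1, ← Finset.prod_filter]
    have e2 : (prs FD.N0 P).filter (fun p => p ∣ DE E u) =
        (DE E u).primeFactors.filter (fun l => l ≤ P) := by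
      ext l
      simp only [prs, Finset.mem_filter, Finset.mem_Ioc, Nat.mem_primeFactors]
      constructor
      · rintro ⟨⟨⟨a, b⟩, c⟩, d⟩
        exact ⟨⟨c, d, DE_ne_zero h⟩, b⟩
      · rintro ⟨⟨c, d, _⟩, b⟩
        refine ⟨⟨⟨?_, b⟩, c⟩, d⟩
        unfold DE at d
        obtain ⟨j, hj, hd'⟩ := (Prime.dvd_finsetProd_iff c.prime _).1 d
        exact lt_of_le_of_lt h.np (h.ro j hj l c hd').1
    rw [← e2]
    apply Finset.prod_congr rfl
    intro l hl
    rw [if_pos (Finset.mem_filter.1 hl).2]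
  · apply Finset.prod_congr rfl
    intro l hl
    rw [if_neg (Finset.mem_filter.1 hl).2]

end Pool.Agent.AQ.PFM
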